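import Mathlib
import Pool.Agent.TH475.SA.Ram
import Pool.Agent.Helper850.RC.P_ramsey

set_option autoImplicit false

open Finset

/-!
# The planar semi-algebraic Ramsey number R_f(4, n) is not polynomial

There is one polynomial `f` in six real variables (three points of the plane) such that the
3-uniform semi-algebraic Ramsey number `R_f(4, n)` grows faster than every polynomial in `n`.
-/

namespace Pool.Agent.Results.MP_654b32_co.PlanarSuperpoly

/-- Value `f(x, y, z)` of a real polynomial in six variables at three points of the plane. -/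
noncomputable def polyVal (f : MvPolynomial (Fin 6) ℝ) (x y z : ℝ × ℝ) : ℝ :=
  MvPolynomial.eval ![x.1, x.2, y.1, y.2, z.1, z.2] f

/-- `T` is a clique: for all `i < j < k` in `T` the triple is an edge, `f(v i, v j, v k) ≥ 0`. -/
def IsClique (f : MvPolynomial (Fin 6) ℝ) {N : ℕ} (v : Fin N → ℝ × ℝ) (T : Finset (Fin N)) :
    Prop :=
  ∀ i ∈ T, ∀ j ∈ T, ∀ k ∈ T, i < j → j < k → 0 ≤ polyVal f (v i) (v j) (v k)

/-- `T` is independent: for all `i < j < k` in `T` the triple is not an edge. -/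
def IsIndep (f : MvPolynomial (Fin 6) ℝ) {N : ℕ} (v : Fin N → ℝ × ℝ) (T : Finset (Fin N)) :
    Prop :=
  ∀ i ∈ T, ∀ j ∈ T, ∀ k ∈ T, i < j → j < k → ¬ 0 ≤ polyVal f (v i) (v j) (v k)

/-- The numbers `N` such that all `N` distinct points of the plane give a hypergraph with a clique
on `s` vertices or an independent set on `n` vertices. -/
def ramseySet (f : MvPolynomial (Fin 6) ℝ) (s n : ℕ) : Set ℕ :=
  {N : ℕ | ∀ v : Fin N → ℝ × ℝ, Function.Injective v →
    (∃ T : Finset (Fin N), T.card = s ∧ IsClique f v T) ∨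
    (∃ T : Finset (Fin N), T.card = n ∧ IsIndep f v T)}

/-- The Ramsey number `R_f(s, n)`: the least element of `ramseySet f s n`. -/
noncomputable def semiRamsey (f : MvPolynomial (Fin 6) ℝ) (s n : ℕ) : ℕ :=
  sInf (ramseySet f s n)

/-- The Ramsey number is well defined. -/
theorem ramseySet_nonempty (f : MvPolynomial (Fin 6) ℝ) (s n : ℕ) : (ramseySet f s n).Nonempty := by
  classical
  obtain ⟨C, hC⟩ := RC.ramsey 3
  obtain ⟨a, ha⟩ := hC 2
  obtain ⟨N, hN⟩ : ∃ N : ℕ, N = RC.tow C (a * (max s n + 1)) := ⟨_, rfl⟩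
  refine ⟨N, ?_⟩
  intro v _
  obtain ⟨T, hTN, hTc, hT⟩ := ha (max s n) (range N) (by rw [card_range, hN]) (fun x =>
    if h : x 0 < N ∧ x 1 < N ∧ x 2 < N then
      (if 0 ≤ polyVal f (v ⟨x 0, h.1⟩) (v ⟨x 1, h.2.1⟩) (v ⟨x 2, h.2.2⟩) then 0 else 1) else 1)
  have hlt : ∀ i ∈ T, i < N := fun i hi => mem_range.mp (hTN hi)
  have hcard : (univ.filter (fun i : Fin N => (i : ℕ) ∈ T)).card = max s n := by
    rw [← hTc]
    refine Finset.card_bij (fun i _ => (i : ℕ)) ?_ ?_ ?_
    · intro i hi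
      exact (mem_filter.mp hi).2
    · intro i _ j _ h
      exact Fin.ext h
    · intro i hi
      exact ⟨⟨i, hlt i hi⟩, mem_filter.mpr ⟨mem_univ _, hi⟩, rfl⟩
  have hsm : ∀ i j k : Fin N, i < j → j < k → StrictMono ![(i : ℕ), (j : ℕ), (k : ℕ)] := by
    intro i j k hij hjk
    have h1 : (i : ℕ) < j := hij
    have h2 : (j : ℕ) < k := hjk
    rw [Fin.strictMono_iff_lt_succ]
    intro l
    fin_cases l
    · simpa using h1
    · simpa using h2
  by_cases hex : ∃ i ∈ univ.filter (fun i : Fin N => (i : ℕ) ∈ T),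
      ∃ j ∈ univ.filter (fun i : Fin N => (i : ℕ) ∈ T),
      ∃ k ∈ univ.filter (fun i : Fin N => (i : ℕ) ∈ T), i < j ∧ j < k ∧
        0 ≤ polyVal f (v i) (v j) (v k)
  · left
    obtain ⟨i, hi, j, hj, k, hk, hij, hjk, he⟩ := hex
    obtain ⟨T', hT', hT'c⟩ := Finset.exists_subset_card_eq (hcard ▸ le_max_left s n :
      s ≤ (univ.filter (fun i : Fin N => (i : ℕ) ∈ T)).card)
    refine ⟨T', hT'c, ?_⟩
    intro i' hi' j' hj' k' hk' hij' hjk'
    by_contra hcon
    have h1 := hT ![(i : ℕ), (j : ℕ), (k : ℕ)] ![(i' : ℕ), (j' : ℕ), (k' : ℕ)]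
      (hsm i j k hij hjk) (hsm i' j' k' hij' hjk')
      (by
        intro l
        fin_cases l
        · exact (mem_filter.mp hi).2
        · exact (mem_filter.mp hj).2
        · exact (mem_filter.mp hk).2)
      (by
        intro l
        fin_cases l
        · exact (mem_filter.mp (hT' hi')).2
        · exact (mem_filter.mp (hT' hj')).2
        · exact (mem_filter.mp (hT' hk')).2)
    simp [he, hcon] at h1
  · right
    push Not at hex
    obtain ⟨T', hT', hT'c⟩ := Finset.exists_subset_card_eq (hcard ▸ le_max_right s n :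
      n ≤ (univ.filter (fun i : Fin N => (i : ℕ) ∈ T)).card)
    refine ⟨T', hT'c, ?_⟩
    intro i hi j hj k hk hij hjk
    exact not_le.mpr (hex i (hT' hi) j (hT' hj) k (hT' hk) hij hjk)

/-- `semiRamsey f s n` is indeed the least element of `ramseySet f s n`. -/
theorem semiRamsey_isLeast (f : MvPolynomial (Fin 6) ℝ) (s n : ℕ) :
    IsLeast (ramseySet f s n) (semiRamsey f s n) :=
  ⟨Nat.sInf_mem (ramseySet_nonempty f s n), fun _ h => Nat.sInf_le h⟩

open MvPolynomial in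
/-- The polynomial: with `(a, b) = y - x` and `(c, d) = z - y` it is
`a^3 c^2 b d - a^4 c d^2 - a^2 c^4 b - b^5 d^2`. -/
noncomputable def fpoly : MvPolynomial (Fin 6) ℝ :=
  (X 2 - X 0) ^ 3 * (X 4 - X 2) ^ 2 * (X 3 - X 1) * (X 5 - X 3)
    - (X 2 - X 0) ^ 4 * (X 4 - X 2) * (X 5 - X 3) ^ 2
    - (X 2 - X 0) ^ 2 * (X 4 - X 2) ^ 4 * (X 3 - X 1)
    - (X 3 - X 1) ^ 5 * (X 5 - X 3) ^ 2

theorem polyVal_fpoly (x y z : ℝ × ℝ) : polyVal fpoly x y z =
    TH475.SA.form (y.1 - x.1) (y.2 - x.2) (z.1 - y.1) (z.2 - y.2) := by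
  unfold polyVal fpoly TH475.SA.form
  simp

open TH475.SA in
theorem lower {k Q a n : ℕ} (hQ : 2 ≤ Q)
    (ha : ∀ I : Finset (ℕ × Finset ℕ), I ⊆ levels k → (∀ p ∈ I, ∀ q ∈ I, ¬ Rho p q) → I.card ≤ a)
    (hn : Q ^ a * 2 ^ (levels k).card < n) :
    Q ^ (levels k).card < semiRamsey fpoly 4 n := by
  classical
  by_contra hcon
  rw [not_lt] at hcon
  obtain ⟨g, hg⟩ := exists_enum k Q
  have hmem := (semiRamsey_isLeast fpoly 4 n).1
  set N := semiRamsey fpoly 4 n with hN
  set h : Fin N → V k Q := fun i => g (Fin.castLE hcon i) with hh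
  have hmono : ∀ i j : Fin N, i < j → ptX (h i) < ptX (h j) := fun i j hij =>
    hg (Fin.castLE_lt_castLE_iff hcon |>.mpr hij)
  have hinj : Function.Injective h := by
    intro i j hij
    rcases lt_trichotomy i j with h1 | h1 | h1
    · have := hmono i j h1
      rw [hij] at this
      exact absurd this (lt_irrefl _)
    · exact h1
    · have := hmono j i h1
      rw [hij] at this
      exact absurd this (lt_irrefl _)
  have hv : Function.Injective (fun i : Fin N => (ptX (h i), ptY (h i))) := by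
    intro i j hij
    exact hinj (ptX_inj (Prod.ext_iff.mp hij).1)
  have hpv : ∀ i j l : Fin N, 0 ≤ polyVal fpoly (ptX (h i), ptY (h i)) (ptX (h j), ptY (h j))
      (ptX (h l), ptY (h l)) ↔ EdgeV (h i) (h j) (h l) := by
    intro i j l
    rw [polyVal_fpoly]
    exact Iff.rfl
  rcases hmem _ hv with ⟨T, hTc, hT⟩ | ⟨T, hTc, hT⟩
  · set o := T.orderEmbOfFin hTc with ho
    have hm : ∀ i, o i ∈ T := fun i => Finset.orderEmbOfFin_mem T hTc i
    have l01 : o 0 < o 1 := o.strictMono (by decide)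
    have l12 : o 1 < o 2 := o.strictMono (by decide)
    have l23 : o 2 < o 3 := o.strictMono (by decide)
    exact no_four hQ (hmono _ _ l01) (hmono _ _ l12) (hmono _ _ l23)
      ((hpv _ _ _).mp (hT _ (hm 0) _ (hm 1) _ (hm 2) l01 l12))
      ((hpv _ _ _).mp (hT _ (hm 1) _ (hm 2) _ (hm 3) l12 l23))
      ((hpv _ _ _).mp (hT _ (hm 0) _ (hm 2) _ (hm 3) (l01.trans l12) l23))
  · have h1 := card_ind hQ (T.image h) ?_ ha
    · rw [Finset.card_image_of_injective _ hinj, hTc] at h1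
      omega
    · intro x hx y hy z hz hxy hyz
      rw [Finset.mem_image] at hx hy hz
      obtain ⟨i, hi, rfl⟩ := hx
      obtain ⟨j, hj, rfl⟩ := hy
      obtain ⟨l, hl, rfl⟩ := hz
      have hij : i < j := by
        by_contra hc
        rcases lt_or_eq_of_le (not_lt.mp hc) with h2 | h2
        · exact absurd (hmono j i h2) (not_lt.mpr hxy.le)
        · rw [h2] at hxy; exact lt_irrefl _ hxy
      have hjl : j < l := by
        by_contra hc
        rcases lt_or_eq_of_le (not_lt.mp hc) with h2 | h2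
        · exact absurd (hmono l j h2) (not_lt.mpr hyz.le)
        · rw [h2] at hyz; exact lt_irrefl _ hyz
      intro he
      exact hT i hi j hj l hl hij hjl ((hpv i j l).mpr he)

/-- There is a polynomial `f` in six variables such that the Ramsey number `R_f(4, n)` grows faster
than every polynomial in `n`. -/
theorem result : ∃ f : MvPolynomial (Fin 6) ℝ, ∀ C : ℕ, ∃ n₀ : ℕ, ∀ n : ℕ, n₀ ≤ n →
    n ^ C < semiRamsey f 4 n := by
  refine ⟨fpoly, fun C => ?_⟩
  set j := 2 * C + 8 with hj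
  set k := 2 ^ j with hk
  set m := (TH475.SA.levels k).card with hm
  set a := (j + 1 + 1) * 2 ^ k with ha
  have hind : ∀ I : Finset (ℕ × Finset ℕ), I ⊆ TH475.SA.levels k →
      (∀ p ∈ I, ∀ q ∈ I, ¬ TH475.SA.Rho p q) → I.card ≤ a := by
    intro I hI hI2
    exact TH475.SA.ind_bound hI hI2 (le_of_eq (by rw [hk]; exact (pow_succ' 2 j).symm))
  have hm2 : k * 2 ^ k ≤ 2 * m := TH475.SA.card_levels k
  have ham : a * (C + 1) ≤ m := by
    have h1 : (j + 1 + 1) * (C + 1) * 2 ≤ k := by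
      have h2 : C < 2 ^ C := Nat.lt_two_pow_self
      have h3 : k = 256 * (2 ^ C * 2 ^ C) := by
        rw [hk, hj, pow_add, mul_comm 2 C, pow_mul]
        ring
      have h4 : (C + 1) * (C + 1) ≤ 2 ^ C * 2 ^ C := Nat.mul_le_mul h2 h2
      rw [h3, hj]
      nlinarith
    have h5 : (j + 1 + 1) * (C + 1) * 2 * 2 ^ k ≤ 2 * m :=
      le_trans (Nat.mul_le_mul_right _ h1) hm2
    have h6 : 2 * (a * (C + 1)) ≤ 2 * m := by
      calc 2 * (a * (C + 1)) = (j + 1 + 1) * (C + 1) * 2 * 2 ^ k := by rw [ha]; ring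
        _ ≤ 2 * m := h5
    omega
  have ha1 : 1 ≤ a := by
    rw [ha]
    have : 0 < 2 ^ k := by positivity
    nlinarith
  set T := 2 ^ ((m + a) * C) + 2 with hT
  refine ⟨2 ^ m * T ^ a + 1, fun n hn => ?_⟩
  have hex : ∃ Q : ℕ, n ≤ 2 ^ m * Q ^ a := by
    refine ⟨n, ?_⟩
    have h1 : n ≤ n ^ a := Nat.le_self_pow (by omega) n
    have h2 : 1 ≤ 2 ^ m := Nat.one_le_two_pow
    calc n ≤ n ^ a := h1
      _ = 1 * n ^ a := (one_mul _).symm
      _ ≤ 2 ^ m * n ^ a := Nat.mul_le_mul_right _ h2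
  classical
  have hfind := Nat.find_spec hex
  have hTpos : 0 < 2 ^ ((m + a) * C) := by positivity
  have hT1 : T < Nat.find hex := by
    by_contra hcon
    rw [not_lt] at hcon
    have : 2 ^ m * (Nat.find hex) ^ a ≤ 2 ^ m * T ^ a :=
      Nat.mul_le_mul_left _ (Nat.pow_le_pow_left hcon _)
    omega
  obtain ⟨Q, hQ⟩ : ∃ Q, Nat.find hex = Q + 1 := ⟨Nat.find hex - 1, by omega⟩
  have hmin : ¬ n ≤ 2 ^ m * Q ^ a := Nat.find_min hex (by omega)
  rw [hQ] at hfind hT1
  have hTQ : T ≤ Q := by omega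
  have hQ2 : 2 ≤ Q := by omega
  have h1 : Q ^ m < semiRamsey fpoly 4 n := by
    apply lower hQ2 hind
    rw [mul_comm]
    exact not_le.mp hmin
  refine lt_of_le_of_lt ?_ h1
  have h2 : n ≤ 2 ^ (m + a) * Q ^ a := by
    calc n ≤ 2 ^ m * (Q + 1) ^ a := hfind
      _ ≤ 2 ^ m * (2 * Q) ^ a := Nat.mul_le_mul_left _ (Nat.pow_le_pow_left (by omega) _)
      _ = 2 ^ (m + a) * Q ^ a := by rw [mul_pow, pow_add]; ring
  calc n ^ C ≤ (2 ^ (m + a) * Q ^ a) ^ C := Nat.pow_le_pow_left h2 _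
    _ = 2 ^ ((m + a) * C) * (Q ^ a) ^ C := by rw [mul_pow, ← pow_mul]
    _ ≤ Q ^ a * (Q ^ a) ^ C := by
        apply Nat.mul_le_mul_right
        calc 2 ^ ((m + a) * C) ≤ Q := by omega
          _ ≤ Q ^ a := Nat.le_self_pow (by omega) Q
    _ = Q ^ (a * (C + 1)) := by rw [← pow_succ', ← pow_mul]
    _ ≤ Q ^ m := Nat.pow_le_pow_right (by omega) ham

end Pool.Agent.Results.MP_654b32_co.PlanarSuperpoly
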